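import Pool.Agent.ACK.StmtsA

/-!
# Squad ACK, row CST: the chain decomposition
-/

set_option autoImplicit false

namespace Pool.Agent.ACK.H47

open Pool.Agent.ACK

/-- the length of a word in which every letter occurs twice is even -/
theorem even_length_of_Gw (l : List ℕ) (h : Gw l) : Even l.length := by
  have h1 : ∑ a ∈ l.toFinset, l.count a = l.length := List.sum_toFinset_count_eq_length l
  rw [← h1]
  have h2 : ∑ a ∈ l.toFinset, l.count a = ∑ a ∈ l.toFinset, 2 := by
    apply Finset.sum_congr rfl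
    intro a ha
    exact h a (List.mem_toFinset.mp ha)
  rw [h2, Finset.sum_const, smul_eq_mul]
  exact ⟨l.toFinset.card, by ring⟩

/-- rotation of the word -/
theorem wd_rotate (c : ℕ) (l : List ℕ) (hc : 1 ≤ c) (hl : l.length = 2 * c) (k : ℕ)
    (i : ZMod (2 * c)) : wd c (l.rotate k) i = wd c l (i + (k : ZMod (2 * c))) := by
  have : NeZero (2 * c) := ⟨by omega⟩
  unfold wd
  have hi : i.val < 2 * c := ZMod.val_lt i
  have hik : (i + (k : ZMod (2 * c))).val < 2 * c := ZMod.val_lt _
  rw [List.getD_eq_getElem _ _ (by rw [List.length_rotate, hl]; exact hi),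
    List.getD_eq_getElem _ _ (by rw [hl]; exact hik)]
  rw [List.getElem_rotate]
  have hv : (i + (k : ZMod (2 * c))).val = (i.val + k) % l.length := by
    rw [hl, ZMod.val_add, ZMod.val_natCast, Nat.add_mod_mod]
  simp only [hv]

/-- no loops, for the rotated word -/
theorem noloop_rotate (c : ℕ) (l l' : List ℕ) (hc : 1 ≤ c) (hl : l.length = 2 * c) (hr : l ~r l')
    (h : ∀ i, wd c l i ≠ wd c l (i + 1)) : ∀ i, wd c l' i ≠ wd c l' (i + 1) := by
  obtain ⟨k, rfl⟩ := hr
  intro i
  rw [wd_rotate c l hc hl k i, wd_rotate c l hc hl k (i + 1)]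
  have h1 := h (i + (k : ZMod (2 * c)))
  have h2 : i + 1 + (k : ZMod (2 * c)) = i + (k : ZMod (2 * c)) + 1 := by ring
  rw [h2]
  exact h1

/-- the first and the last letter of a word without loops are different -/
theorem first_ne_last (c : ℕ) (x y : ℕ) (M : List ℕ) (hc : 1 ≤ c)
    (hl : (y :: (M ++ [x])).length = 2 * c)
    (h : ∀ i, wd c (y :: (M ++ [x])) i ≠ wd c (y :: (M ++ [x])) (i + 1)) : x ≠ y := by
  have : NeZero (2 * c) := ⟨by omega⟩
  have h1 := h (((2 * c - 1 : ℕ) : ZMod (2 * c)))
  have e1 : (((2 * c - 1 : ℕ) : ZMod (2 * c))).val = 2 * c - 1 := by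
    rw [ZMod.val_natCast, Nat.mod_eq_of_lt (by omega)]
  have e2 : (((2 * c - 1 : ℕ) : ZMod (2 * c))) + 1 = 0 := by
    have : (((2 * c - 1 : ℕ) : ZMod (2 * c))) + 1 = ((2 * c - 1 + 1 : ℕ) : ZMod (2 * c)) := by
      push_cast
      ring
    rw [this, show 2 * c - 1 + 1 = 2 * c by omega, ZMod.natCast_self]
  rw [e2] at h1
  unfold wd at h1
  rw [e1, ZMod.val_zero] at h1
  have hM : M.length + 2 = 2 * c := by
    simpa using hl
  have e3 : (y :: (M ++ [x])).getD (2 * c - 1) 0 = x := by
    rw [show 2 * c - 1 = M.length + 1 by omega]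
    simp
  have e4 : (y :: (M ++ [x])).getD 0 0 = y := by simp
  rw [e3, e4] at h1
  exact h1

/-- a list with at least two elements: first and last element -/
theorem exists_first_last (b : List Tk) (h : 2 ≤ b.length) :
    ∃ (t' t : Tk) (β : List Tk), b = t' :: (β ++ [t]) := by
  cases b with
  | nil => simp at h
  | cons t' b1 =>
    have h1 : b1 ≠ [] := by
      rintro rfl
      simp at h
    refine ⟨t', b1.getLast h1, b1.dropLast, ?_⟩
    rw [List.dropLast_append_getLast h1]

theorem cst (_hG : GfwStmt) (hR : RtkStmt) (_hC : CwgStmt) (hF : FlgStmt) (hB : BglStmt)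
    (hP : GpbStmt) (hM : MraStmt) : CstStmt := by
  intro c l s hc hl hg hn
  -- the induction
  have key : ∀ n : ℕ, ∀ (C : ℕ → List ℕ) (b : List Tk), b.length = n → CW C b → Ty C b s →
      l ~r BL C b → ∃ (C : ℕ → List ℕ) (b : List Tk), CW C b ∧ Ty C b s ∧
    l ~r BL C b ∧ (b.length ≤ 2 ∨ ∀ k < b.length, ∀ q, ¬ Bg (wd c (BL C b)) s (gp c C b k) q) := by
    intro n
    induction n using Nat.strong_induction_on with
    | _ n ih =>
      intro C b hbn hcw hty hrot
      by_cases h2 : b.length ≤ 2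
      · exact ⟨C, b, hcw, hty, hrot, Or.inl h2⟩
      by_cases hbg : ∀ k < b.length, ∀ q, ¬ Bg (wd c (BL C b)) s (gp c C b k) q
      · exact ⟨C, b, hcw, hty, hrot, Or.inr hbg⟩
      push Not at hbg
      obtain ⟨k, hk, q, hq⟩ := hbg
      have hlen : (BL C b).length = 2 * c := by
        rw [← hrot.perm.length_eq, hl]
      have hnl : ∀ i, wd c (BL C b) i ≠ wd c (BL C b) (i + 1) :=
        noloop_rotate c l (BL C b) hc hl hrot hn
      obtain ⟨x, y, M, G1, G2, hG1, hG2, hrr, halt⟩ := hB c (BL C b) s _ q hc hlen hnl hq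
      have hgp := (hP c C b hc hcw hlen).1 k hk
      rw [hgp] at hrr halt
      -- the rotated list of tokens
      have hbr : b ~r b.rotate (k + 1) := ⟨k + 1, rfl⟩
      obtain ⟨hr1, hr2, hr3⟩ := hR C b (b.rotate (k + 1)) s hbr
      have hev : Even b.length := by
        have := even_length_of_Gw _ hcw.tw
        rwa [List.length_map] at this
      have hlr : (b.rotate (k + 1)).length = b.length := List.length_rotate _ _
      obtain ⟨t', t, β, hβ⟩ := exists_first_last (b.rotate (k + 1)) (by omega)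
      have hβl : β.length + 2 = b.length := by
        rw [← hlr, hβ]
        simp
      have hβ2 : 2 ≤ β.length := by
        obtain ⟨m, hm⟩ := hev
        omega
      have hcw' := hr2 hcw
      have hty' := hr3 hty
      rw [hβ] at hcw' hty' hrr halt hr1
      have hrot' : l ~r BL C (t' :: (β ++ [t])) := hrot.trans hr1
      have hnl' : ∀ i, wd c (BL C (t' :: (β ++ [t]))) i ≠ wd c (BL C (t' :: (β ++ [t]))) (i + 1) :=
        noloop_rotate c l _ hc hl hrot' hn
      have hlen' : (BL C (t' :: (β ++ [t]))).length = 2 * c := by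
        rw [← hrot'.perm.length_eq, hl]
      have hxy : x ≠ y := by
        rw [hrr] at hnl' hlen'
        exact first_ne_last c x y M hc hlen' hnl'
      obtain ⟨C', b', h1, h2', h3, h4⟩ := hM C β t t' s x y M G1 G2 hcw' hty' hβ2 hxy hG1 hG2 hrr halt
      exact ih b'.length (by omega) C' b' rfl h1 h2' (hrot'.trans h3)
  obtain ⟨C, b, h1, h2, h3⟩ := hF l s hg
  refine key b.length C b rfl h1 h2 ?_
  rw [← h3]

end Pool.Agent.ACK.H47
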