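import Pool.Agent.ACK.StmtsC

/-!
# Squad ACK, row EXX: the other type
-/

set_option autoImplicit false

namespace Pool.Agent.ACK.H47

open Pool.Agent.ACK Pool.Agent.ACK.C

theorem exx (hC : CwgStmt) (hB : BflStmt) : ExxStmt := by
  intro c C hcw hlen
  have hmem : ∀ e < 6, ∃ t ∈ bX, t.1 = e := by decide
  have hne : ∀ e < 6, C e ≠ [] := by
    intro e he
    obtain ⟨t, ht, rfl⟩ := hmem e he
    exact hcw.ne t ht
  have hnd : ∀ e < 6, (C e).Nodup := by
    intro e he
    obtain ⟨t, ht, rfl⟩ := hmem e he
    exact hcw.nd t ht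
  have hdj : ∀ e < 6, ∀ e' < 6, e ≠ e' → List.Disjoint (C e) (C e') := by
    intro e he e' he' hee
    obtain ⟨t, ht, rfl⟩ := hmem e he
    obtain ⟨t', ht', rfl⟩ := hmem e' he'
    exact hcw.dj t ht t' ht' hee
  -- the tangle
  have hUV : Gw ((C 3 ++ C 4) ++ ((C 3).reverse ++ (C 4).reverse)) := by
    have h1 : CW C [(3, false), (4, false), (3, true), (4, true)] := by
      refine ⟨?_, ?_, ?_, ?_⟩
      · unfold Gw
        decide
      · intro t ht
        apply hne
        revert t
        decide
      · intro t ht
        apply hnd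
        revert t
        decide
      · have h6 : ∀ t ∈ [((3 : ℕ), false), (4, false), (3, true), (4, true)], t.1 < 6 := by decide
        intro t ht t' ht' h
        exact hdj _ (h6 t ht) _ (h6 t' ht') h
    have h2 := (hC C _ h1).1
    simpa [BL, bk, List.append_assoc] using h2
  have hfl := hB (C 2) (C 3 ++ C 4) (C 1 ++ C 5) ((C 3).reverse ++ (C 4).reverse)
    ((C 5).reverse ++ (C 0 ++ (C 1 ++ C 0))) hUV
  have e1 : BL C bX = C 2 ++ ((C 3 ++ C 4) ++ ((C 2).reverse ++ ((C 1 ++ C 5) ++
      (((C 3).reverse ++ (C 4).reverse) ++ ((C 5).reverse ++ (C 0 ++ (C 1 ++ C 0))))))) := by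
    simp [BL, bk, bX, List.append_assoc]
  have hm' : ∀ t ∈ [((3 : ℕ), false), (4, false), (1, false), (5, false), (3, true), (4, true),
      (5, true), (0, false), (1, false), (0, false)], t.1 < 6 ∧ t.1 ≠ 2 := by decide
  have e2 : (C 3 ++ C 4) ++ ((C 1 ++ C 5) ++ ((C 2).reverse ++ (((C 3).reverse ++ (C 4).reverse) ++
      (C 2 ++ ((C 5).reverse ++ (C 0 ++ (C 1 ++ C 0))))))) =
      BL (Function.update C 5 (C 5 ++ (C 2).reverse)) [(3, false), (4, false), (1, false),
        (5, false), (3, true), (4, true), (5, true), (0, false), (1, false), (0, false)] := by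
    simp [BL, bk, List.append_assoc]
  have hdr : ∀ l m : List ℕ, List.Disjoint l m → List.Disjoint l m.reverse := by
    intro l m h x hx hx'
    exact h hx (List.mem_reverse.mp hx')
  have hcw' : CW (Function.update C 5 (C 5 ++ (C 2).reverse)) [(3, false), (4, false), (1, false),
        (5, false), (3, true), (4, true), (5, true), (0, false), (1, false), (0, false)] := by
    refine ⟨?_, ?_, ?_, ?_⟩
    · unfold Gw
      decide
    · intro t ht
      obtain ⟨h6, h2⟩ := hm' t ht
      by_cases h5 : t.1 = 5
      · rw [h5, Function.update_self]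
        intro h0
        exact hne 5 (by norm_num) (List.append_eq_nil_iff.mp h0).1
      · rw [Function.update_of_ne h5]
        exact hne _ h6
    · intro t ht
      obtain ⟨h6, h2⟩ := hm' t ht
      by_cases h5 : t.1 = 5
      · rw [h5, Function.update_self]
        rw [List.nodup_append']
        exact ⟨hnd 5 (by norm_num), List.nodup_reverse.mpr (hnd 2 (by norm_num)),
          hdr _ _ (hdj 5 (by norm_num) 2 (by norm_num) (by norm_num))⟩
      · rw [Function.update_of_ne h5]
        exact hnd _ h6
    · intro t ht t' ht' h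
      obtain ⟨h6, h2⟩ := hm' t ht
      obtain ⟨h6', h2'⟩ := hm' t' ht'
      by_cases h5 : t.1 = 5
      · by_cases h5' : t'.1 = 5
        · exact absurd (h5.trans h5'.symm) h
        · rw [h5, Function.update_self, Function.update_of_ne h5']
          intro x hx hx'
          rcases List.mem_append.mp hx with hx1 | hx1
          · exact hdj 5 (by norm_num) _ h6' (fun h => h5' h.symm) hx1 hx'
          · exact hdj 2 (by norm_num) _ h6' (fun h => h2' h.symm) (List.mem_reverse.mp hx1) hx'
      · by_cases h5' : t'.1 = 5
        · rw [h5', Function.update_self, Function.update_of_ne h5]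
          intro x hx hx'
          rcases List.mem_append.mp hx' with hx1 | hx1
          · exact hdj _ h6 5 (by norm_num) h5 hx hx1
          · exact hdj _ h6 2 (by norm_num) h2 hx (List.mem_reverse.mp hx1)
        · rw [Function.update_of_ne h5, Function.update_of_ne h5']
          exact hdj _ h6 _ h6' h
  refine ⟨_, ⟨_, _, hcw', by simp, rfl, ?_⟩, ?_⟩
  · rw [← e2, ← hlen, e1]
    simp only [List.length_append, List.length_reverse]
    omega
  · rw [e1, hfl, e2]

end Pool.Agent.ACK.H47
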